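import Pool.Agent.TH18.APC.TreeMetric

set_option autoImplicit false

/-!
# Asymptotic property C for amalgams over subgroups of finite asymptotic dimension

Let `C` be a common subgroup of `H` and `K` (`H = G false`, `K = G true`, inclusions `φ`).  The main
case of the theorem (`C₀ = 1`, `L = 1`, `k = 0`) says: *if `H` and `K` have asymptotic property C
(APC) and `C` has finite asymptotic dimension, then `H *_C K` has APC.*

In general we are given
* a subgroup `C₀` of `C`, normal in `H` and in `K`, such that `H / C₀` and `K / C₀` have APC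
  (for example `C₀ = 1`);
* homomorphisms `ρ` of `H` and `K` to a group `L` with APC which agree on `C` (for example `L = 1`);
* numbers `k` and `e` such that for all `g = a_0 a_1 … a_(k-1)` in `H *_C K` with factors
  alternately in `H \ C` and `K \ C` the image in `C / C₀` of
  `{c ∈ C | ρ c = 1, g⁻¹ c g ∈ C}` has asymptotic dimension less than `e`.

Examples: `C` is malnormal in `H` or in `K` (`k = 2`, `e = 1`, any `C`, of infinite asymptotic
dimension as well), acylindrical splittings, `C` an extension of a group of finite asymptotic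
dimension by a group `C₀` which is normal in `H` and in `K`.

Proof.  Let `T` be the tree of the amalgam, rooted at the edge `C`.  Every `x` belongs to one vertex
set, a coset of `H` or `K`, which is entered from the root through one coset of `C`, its entrance.
Starting at `x` we go up the tree: if the point is at distance at most `r_j` from the entrance of
its vertex set, we jump to the entrance, and so on, for at most `2 M + k` steps.  Points whose
path is stopped at the `j`-th step are covered using the families for `H` and `K` at the next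
scales, since the parts of different vertex sets outside the `r_j`-neighbourhoods of the entrances
are `r_j`-disjoint; here `r_j` is chosen after these scales.  The points whose paths
are never stopped are close to an edge at a depth divisible by `M` and to its `k`-th ancestor; these
points are covered by `2 e` families, whose scales can be reserved in advance, because `M` only has
to be larger than these scales.
-/

namespace Pool.Agent.Results.MP_1df68a_gt.FiniteAsdimOnC

/-- `d` is a proper left-invariant metric on the group `X`. -/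
def ProperMetric {X : Type} [Group X] (d : X → X → ℝ) : Prop :=
  (∀ x y, d x y = d y x) ∧ (∀ x, d x x = 0) ∧ (∀ x y, d x y = 0 → x = y) ∧
    (∀ x y z, d x z ≤ d x y + d y z) ∧ (∀ g x y, d (g * x) (g * y) = d x y) ∧
    (∀ r : ℝ, Set.Finite {x : X | d 1 x ≤ r})

/-- Asymptotic property C: for all positive reals `R 0, R 1, …` there are `n` and families
`U 0, …, U (n - 1)` of subsets of `X` such that `U k` is uniformly bounded, the points of
different members of `U k` are at distance larger than `R k`, and the families together cover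
`X`. -/
def HasAPC {X : Type} (d : X → X → ℝ) : Prop :=
  ∀ R : ℕ → ℝ, (∀ k, 0 < R k) → ∃ n : ℕ, ∃ U : ℕ → Set (Set X),
    (∀ k < n, ∃ B : ℝ, ∀ V ∈ U k, ∀ x ∈ V, ∀ y ∈ V, d x y ≤ B) ∧
    (∀ k < n, ∀ V ∈ U k, ∀ W ∈ U k, V ≠ W → ∀ x ∈ V, ∀ y ∈ W, R k < d x y) ∧
    (∀ x : X, ∃ k < n, ∃ V ∈ U k, x ∈ V)

/-- The subset `S` has asymptotic dimension less than `e`: for every `r > 0` it is covered by `e`
families of subsets of `X`, each of them uniformly bounded and such that the points of different
members are at distance larger than `r`. -/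
def AsdimLT {X : Type} (d : X → X → ℝ) (S : Set X) (e : ℕ) : Prop :=
  ∀ r : ℝ, 0 < r → ∃ U : ℕ → Set (Set X),
    (∀ k < e, ∃ B : ℝ, ∀ V ∈ U k, ∀ x ∈ V, ∀ y ∈ V, d x y ≤ B) ∧
    (∀ k < e, ∀ V ∈ U k, ∀ W ∈ U k, V ≠ W → ∀ x ∈ V, ∀ y ∈ W, r < d x y) ∧
    (∀ x ∈ S, ∃ k < e, ∃ V ∈ U k, x ∈ V)

/-- the product `a_0 a_1 … a_(k-1)` in the amalgamated product, where `a_j` is in the factor
`G (i j)` -/
noncomputable def altProd {G : Bool → Type} [∀ i, Group (G i)] {C : Type} [Group C]
    (φ : ∀ i, C →* G i) (k : ℕ) (i : ℕ → Bool) (a : ∀ j, G (i j)) : Monoid.PushoutI φ :=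
  ((List.range k).map (fun j => Monoid.PushoutI.of (φ := φ) (i j) (a j))).prod

theorem apcon_of {X : Type} [Group X] (h : ∃ d : X → X → ℝ, ProperMetric d ∧ HasAPC d) :
    Pool.Agent.TH18.APC.APCon (Set.univ : Set X) := by
  obtain ⟨d, ⟨-, -, -, -, hinv, hprop⟩, hA⟩ := h
  refine Pool.Agent.TH18.APC.APCon_of_metric Set.univ d hinv hprop ?_
  intro R hR
  obtain ⟨n, U, h1, h2, h3⟩ := hA R hR
  exact ⟨n, U, h1, h2, fun x _ => h3 x⟩

/-- **APC of amalgamated free products.**  Let `H = G false` and `K = G true` have APC, and let `C`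
be a common subgroup.  Let `C₀` be a subgroup of `C` which is normal in `H` and in `K` and such that
`H / C₀` and `K / C₀` have APC, and let `ρ` be homomorphisms of `H` and `K` to a group `L` with APC
which agree on `C`.  Suppose that for all alternating products `g` of `k` elements of `H \ C` and
`K \ C` the image in `C / C₀` of the group of all `c` in `C` with `ρ c = 1` and `g⁻¹ c g` in `C` has
asymptotic dimension less than `e`.  Then every proper left-invariant metric on `H *_C K` has
APC. -/
theorem result (G : Bool → Type) [∀ i, Group (G i)] (C : Type) [Group C] (φ : ∀ i, C →* G i)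
    (hφ : ∀ i, Function.Injective (φ i))
    (hG : ∀ i, ∃ d : G i → G i → ℝ, ProperMetric d ∧ HasAPC d)
    (C₀ : Subgroup C) [C₀.Normal] [∀ i, (C₀.map (φ i)).Normal]
    (hG₀ : ∀ i, ∃ d : (G i ⧸ C₀.map (φ i)) → (G i ⧸ C₀.map (φ i)) → ℝ,
      ProperMetric d ∧ HasAPC d)
    (L : Type) [Group L] (hL : ∃ d : L → L → ℝ, ProperMetric d ∧ HasAPC d)
    (ρ : ∀ i, G i →* L) (hρ : ∀ c, ρ false (φ false c) = ρ true (φ true c))
    (dC : (C ⧸ C₀) → (C ⧸ C₀) → ℝ) (hdC : ProperMetric dC) (k e : ℕ)
    (hC : ∀ (i : ℕ → Bool) (a : ∀ j, G (i j)), (∀ j < k, a j ∉ Set.range (φ (i j))) →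
      (∀ j, j + 1 < k → i j ≠ i (j + 1)) →
      AsdimLT dC ((QuotientGroup.mk : C → C ⧸ C₀) '' {c | ρ false (φ false c) = 1 ∧
        ∃ c' : C, (altProd φ k i a)⁻¹ * Monoid.PushoutI.base φ c * altProd φ k i a =
          Monoid.PushoutI.base φ c'}) e)
    (d : Monoid.PushoutI φ → Monoid.PushoutI φ → ℝ) (hd : ProperMetric d) : HasAPC d := by
  have hρ' : ∀ i c, ρ i (φ i c) = ρ false (φ false c) := by
    intro i c
    cases i
    · rfl
    · exact (hρ c).symm
  let R : Monoid.PushoutI φ →* L := Monoid.PushoutI.lift ρ ((ρ false).comp (φ false)) (by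
    intro i
    ext c
    exact hρ' i c)
  have hR : ∀ c, R (Monoid.PushoutI.base φ c) = ρ false (φ false c) := by
    intro c
    show (Monoid.PushoutI.lift _ _ _) (Monoid.PushoutI.base φ c) = _
    rw [Monoid.PushoutI.lift_base]
    rfl
  have h1 : Pool.Agent.TH18.APC.APCon (Set.univ : Set (Monoid.PushoutI φ)) := by
    refine Pool.Agent.TH18.APC.APC_push hφ C₀ R (fun i => apcon_of (hG i))
      (fun i => apcon_of (hG₀ i)) (apcon_of hL) k e ?_
    intro i a h1 h2
    obtain ⟨-, -, -, -, hinv, hprop⟩ := hdC
    refine (Pool.Agent.TH18.APC.FinDec_of_metric _ dC hinv hprop e (hC i a h1 h2)).mono ?_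
    rintro _ ⟨c, ⟨h3, c', h4⟩, rfl⟩
    refine ⟨c, ⟨(hR c).symm.trans h3, c', ?_⟩, rfl⟩
    show (altProd φ k i a)⁻¹ * Monoid.PushoutI.base φ c * altProd φ k i a = _
    have h5 : Monoid.PushoutI.base φ c * altProd φ k i a =
      altProd φ k i a * Monoid.PushoutI.base φ c' := h4
    rw [mul_assoc, h5, inv_mul_cancel_left]
  obtain ⟨-, -, -, -, hinv, hprop⟩ := hd
  intro r _
  obtain ⟨n, U, B, h2, h3, h4⟩ := Pool.Agent.TH18.APC.metric_of_APC h1 d hinv hprop r
  exact ⟨n, U, fun k hk => ⟨B, h2 k hk⟩, h3, h4⟩

end Pool.Agent.Results.MP_1df68a_gt.FiniteAsdimOnC
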