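import Pool.Agent.TH18.APC.AmalgamFin

set_option autoImplicit false

/-!
# Asymptotic property C for amalgamated free products

Let `C` be a common subgroup of `H` and `K` (`H = G false`, `K = G true`, inclusions `φ`).  We prove
that `H *_C K` has asymptotic property C (APC) if `H` and `K` have APC and there are
* homomorphisms `ρ` of `H` and `K` to one group `L` with APC which agree on `C`, and
* homomorphisms `π` of `H` and `K` to groups `P false`, `P true` with APC, with kernels in `C`,

such that the kernel of `ρ` on `C` has a finite image under each `π`.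

Special cases.
* `C` is finite, `H` and `K` are arbitrary groups with APC (`L = 1`, `π = id`).
* `H *_C K` has a homomorphism to a group with APC which has finite kernel on `C` (`π = id`): for
  example the doubles `H *_C H`, the case that `C` is a retract of `K`, such as
  `H *_C (C × K')`, and the case that `H` and `K` are subgroups of one group with APC.
* `C` is normal in `H` and in `K`, and `H / C` and `K / C` have APC (`L = 1`).

Ingredients.
* `APC_ext`: the extension theorem (proved for `S13721`).
* `APC_fib`: if `f : M → Q` is a controlled map of groups, `Q` has APC and the fibres of `f` have APC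
  uniformly, then `M` has APC.
* `APC_coprodI`: finite free products (from the starting file `S13007`).
* Let `M` be the kernel of `ρ` on `H *_C K`.  Choose an equivariant map `b : H *_C K → C` such that
  `ρ (b z)` depends only on `ρ z`.  The amalgamated product acts on its product with the free
  product `P false * P true`: an element `g` of a factor sends `(z, n)` to
  `(z g⁻¹, π (b (z g⁻¹)) π (g) π (b z)⁻¹ n)`.  The elements of `C` act trivially on the second
  coordinate, and a reduced word of length `r` changes it by a reduced word of length `r`.  The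
  second coordinate gives a map from `M` to the free product which is controlled, and its fibres are
  contained in finitely many cosets of `C`.
-/

namespace Pool.Agent.Results.MP_1df68a_gt.FiniteKernelOnC

/-- `d` is a proper left-invariant metric on the group `X`. -/
def ProperMetric {X : Type} [Group X] (d : X → X → ℝ) : Prop :=
  (∀ x y, d x y = d y x) ∧ (∀ x, d x x = 0) ∧ (∀ x y, d x y = 0 → x = y) ∧
    (∀ x y z, d x z ≤ d x y + d y z) ∧ (∀ g x y, d (g * x) (g * y) = d x y) ∧
    (∀ r : ℝ, Set.Finite {x : X | d 1 x ≤ r})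

/-- Asymptotic property C: for all positive reals `R 0, R 1, …` there are `n` and families
`U 0, …, U (n - 1)` of subsets of `X` such that `U k` is uniformly bounded, the points of
different members of `U k` are at distance larger than `R k`, and the families together cover
`X`. -/
def HasAPC {X : Type} (d : X → X → ℝ) : Prop :=
  ∀ R : ℕ → ℝ, (∀ k, 0 < R k) → ∃ n : ℕ, ∃ U : ℕ → Set (Set X),
    (∀ k < n, ∃ B : ℝ, ∀ V ∈ U k, ∀ x ∈ V, ∀ y ∈ V, d x y ≤ B) ∧
    (∀ k < n, ∀ V ∈ U k, ∀ W ∈ U k, V ≠ W → ∀ x ∈ V, ∀ y ∈ W, R k < d x y) ∧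
    (∀ x : X, ∃ k < n, ∃ V ∈ U k, x ∈ V)

theorem apcon_of {X : Type} [Group X] (h : ∃ d : X → X → ℝ, ProperMetric d ∧ HasAPC d) :
    Pool.Agent.TH18.APC.APCon (Set.univ : Set X) := by
  obtain ⟨d, ⟨-, -, -, -, hinv, hprop⟩, hA⟩ := h
  refine Pool.Agent.TH18.APC.APCon_of_metric Set.univ d hinv hprop ?_
  intro R hR
  obtain ⟨n, U, h1, h2, h3⟩ := hA R hR
  exact ⟨n, U, h1, h2, fun x _ => h3 x⟩

theorem countable_of {X : Type} [Group X] (h : ∃ d : X → X → ℝ, ProperMetric d ∧ HasAPC d) :
    Countable X := by
  obtain ⟨d, ⟨-, -, -, -, -, hprop⟩, -⟩ := h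
  rw [← Set.countable_univ_iff]
  have h1 : (Set.univ : Set X) ⊆ ⋃ n : ℕ, {x : X | d 1 x ≤ n} := by
    intro x _
    obtain ⟨n, hn⟩ := exists_nat_ge (d 1 x)
    exact Set.mem_iUnion.2 ⟨n, hn⟩
  exact (Set.countable_iUnion (fun n : ℕ => (hprop n).countable)).mono h1

/-- **APC of amalgamated free products.**  Let `H = G false` and `K = G true` have APC, and let `C`
be a common subgroup.  Let `ρ` be homomorphisms of `H` and `K` to a group `L` with APC which agree on
`C`, and let `π` be homomorphisms of `H` and `K` to groups with APC whose kernels are contained in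
`C`.  If the kernel of `ρ` on `C` has a finite image under each `π`, then every proper left-invariant
metric on `H *_C K` has APC. -/
theorem result (G : Bool → Type) [∀ i, Group (G i)] (C : Type) [Group C] (φ : ∀ i, C →* G i)
    (hφ : ∀ i, Function.Injective (φ i))
    (hG : ∀ i, ∃ d : G i → G i → ℝ, ProperMetric d ∧ HasAPC d)
    (L : Type) [Group L] (hL : ∃ d : L → L → ℝ, ProperMetric d ∧ HasAPC d)
    (ρ : ∀ i, G i →* L) (hρ : ∀ c, ρ false (φ false c) = ρ true (φ true c))
    (P : Bool → Type) [∀ i, Group (P i)]
    (hP : ∀ i, ∃ d : P i → P i → ℝ, ProperMetric d ∧ HasAPC d)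
    (π : ∀ i, G i →* P i) (hπ : ∀ i g, π i g = 1 → ∃ c, φ i c = g)
    (hfin : ∀ i, Set.Finite {x : P i | ∃ c, ρ i (φ i c) = 1 ∧ π i (φ i c) = x})
    (d : Monoid.PushoutI φ → Monoid.PushoutI φ → ℝ) (hd : ProperMetric d) : HasAPC d := by
  have hcP : ∀ i, Countable (P i) := fun i => countable_of (hP i)
  have hρ' : ∀ i c, ρ i (φ i c) = ρ false (φ false c) := by
    intro i c
    cases i
    · rfl
    · exact (hρ c).symm
  let R : Monoid.PushoutI φ →* L := Monoid.PushoutI.lift ρ ((ρ false).comp (φ false)) (by
    intro i
    ext c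
    exact hρ' i c)
  have hR : ∀ c, R (Monoid.PushoutI.base φ c) = ρ false (φ false c) := by
    intro c
    show (Monoid.PushoutI.lift _ _ _) (Monoid.PushoutI.base φ c) = _
    rw [Monoid.PushoutI.lift_base]
    rfl
  have hC : Pool.Agent.TH18.APC.APCon (Set.univ : Set C) :=
    Pool.Agent.TH18.APC.APCon_comap (φ false) (hφ false) (fun _ _ => Set.mem_univ _)
      (apcon_of (hG false))
  have h1 : Pool.Agent.TH18.APC.APCon (Set.univ : Set (Monoid.PushoutI φ)) := by
    refine Pool.Agent.TH18.APC.APC_amalgam (R := R) π hφ (fun i g hg => ?_) (fun i => ?_)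
      (apcon_of hL) (fun i => apcon_of (hP i)) hC
    · obtain ⟨c, hc⟩ := hπ i g hg
      exact ⟨c, hc⟩
    · refine (hfin i).subset ?_
      rintro x ⟨c, hc, rfl⟩
      exact ⟨c, by rw [hρ', ← hR, hc], rfl⟩
  obtain ⟨-, -, -, -, hinv, hprop⟩ := hd
  intro r _
  obtain ⟨n, U, B, h2, h3, h4⟩ := Pool.Agent.TH18.APC.metric_of_APC h1 d hinv hprop r
  exact ⟨n, U, fun k hk => ⟨B, h2 k hk⟩, h3, h4⟩

end Pool.Agent.Results.MP_1df68a_gt.FiniteKernelOnC
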