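import Pool.Agent.TH18.APC.TreePolyFin

set_option autoImplicit false

/-!
# Asymptotic property C for amalgams over subgroups locally of polynomial growth

Let `C` be a common subgroup of `H` and `K` (`H = G false`, `K = G true`, inclusions `φ`).  The main
case of the theorem (`C₀ = 1`, `L = 1`) says: *if `H` and `K` have asymptotic property C (APC) and all
finitely generated subgroups of `C` have polynomial growth (for example if `C` is abelian, or
locally nilpotent, or locally finite), then `H *_C K` has APC.*  Here `C` can have infinite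
asymptotic dimension.

In general we are given
* a subgroup `C₀` of `C`, normal in `H` and in `K`, such that `H / C₀` and `K / C₀` have APC
  (for example `C₀ = 1`);
* homomorphisms `ρ` of `H` and `K` to a group `L` with APC which agree on `C` (for example `L = 1`);
* and assume that the finite subsets of the image of `{c ∈ C | ρ c = 1}` in `C / C₀` have polynomial
  growth.

Proof.  As for `FiniteAsdimOnC` we go up the tree of the amalgam for `2 M` steps, where `M` only has
to be larger than the first two scales.  The points whose paths are stopped are covered with the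
families of `H` and `K`.  The other points are close to an edge at a depth divisible by `M`, where the
close points give rise to a finite subset `Φ` of `C`.  Let `q` be the degree of growth of `Φ`.  The
edge group cosets are cut by the spheres of the `Φ`-balls around the points of a net.  The points
outside the spheres form sets which are disjoint at the first two scales.  By the
Lovász local lemma the radii of the balls can be chosen such that at most `q` spheres
come close to a point of the group, at all of the next `(q + 1) ^ 2` scales; hence the points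
on the spheres are covered by `(q + 1) ^ 2` families with these scales.
-/

namespace Pool.Agent.Results.MP_1df68a_gt.PolynomialGrowthOnC

open Pointwise

/-- `d` is a proper left-invariant metric on the group `X`. -/
def ProperMetric {X : Type} [Group X] (d : X → X → ℝ) : Prop :=
  (∀ x y, d x y = d y x) ∧ (∀ x, d x x = 0) ∧ (∀ x y, d x y = 0 → x = y) ∧
    (∀ x y z, d x z ≤ d x y + d y z) ∧ (∀ g x y, d (g * x) (g * y) = d x y) ∧
    (∀ r : ℝ, Set.Finite {x : X | d 1 x ≤ r})

/-- Asymptotic property C: for all positive reals `R 0, R 1, …` there are `n` and families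
`U 0, …, U (n - 1)` of subsets of `X` such that `U k` is uniformly bounded, the points of
different members of `U k` are at distance larger than `R k`, and the families together cover
`X`. -/
def HasAPC {X : Type} (d : X → X → ℝ) : Prop :=
  ∀ R : ℕ → ℝ, (∀ k, 0 < R k) → ∃ n : ℕ, ∃ U : ℕ → Set (Set X),
    (∀ k < n, ∃ B : ℝ, ∀ V ∈ U k, ∀ x ∈ V, ∀ y ∈ V, d x y ≤ B) ∧
    (∀ k < n, ∀ V ∈ U k, ∀ W ∈ U k, V ≠ W → ∀ x ∈ V, ∀ y ∈ W, R k < d x y) ∧
    (∀ x : X, ∃ k < n, ∃ V ∈ U k, x ∈ V)

/-- The finite subsets `Φ` of `S` have polynomial growth: the number of products of `n` elements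
of `Φ` is at most `K (n + 1) ^ q` for some `K`, `q` depending on `Φ`. -/
def LocallyPolynomial {X : Type} [Group X] (S : Set X) : Prop :=
  ∀ Φ : Set X, Φ.Finite → Φ ⊆ S → ∃ K q : ℕ, ∀ n : ℕ, (Φ ^ n).ncard ≤ K * (n + 1) ^ q

theorem apcon_of {X : Type} [Group X] (h : ∃ d : X → X → ℝ, ProperMetric d ∧ HasAPC d) :
    Pool.Agent.TH18.APC.APCon (Set.univ : Set X) := by
  obtain ⟨d, ⟨-, -, -, -, hinv, hprop⟩, hA⟩ := h
  refine Pool.Agent.TH18.APC.APCon_of_metric Set.univ d hinv hprop ?_
  intro R hR
  obtain ⟨n, U, h1, h2, h3⟩ := hA R hR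
  exact ⟨n, U, h1, h2, fun x _ => h3 x⟩

theorem polyG_of {X : Type} [Group X] {S : Set X} (h : LocallyPolynomial S) :
    Pool.Agent.TH18.APC.PolyG S := by
  classical
  intro Φ hΦ
  obtain ⟨K, q, hK⟩ := h (Φ : Set X) Φ.finite_toSet (fun a ha => hΦ a ha)
  refine ⟨K, q, fun n => ?_⟩
  have h1 := hK n
  rw [← Finset.coe_pow, Set.ncard_coe_finset] at h1
  exact h1

/-- **APC of amalgamated free products.**  Let `H = G false` and `K = G true` have APC, and let `C`
be a common subgroup.  Let `C₀` be a subgroup of `C` which is normal in `H` and in `K` and such that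
`H / C₀` and `K / C₀` have APC, and let `ρ` be homomorphisms of `H` and `K` to a group `L` with APC
which agree on `C`.  If the finite subsets of the image in `C / C₀` of the kernel of `ρ` on `C` have
polynomial growth, then every proper left-invariant metric on `H *_C K` has APC. -/
theorem result (G : Bool → Type) [∀ i, Group (G i)] (C : Type) [Group C] (φ : ∀ i, C →* G i)
    (hφ : ∀ i, Function.Injective (φ i))
    (hG : ∀ i, ∃ d : G i → G i → ℝ, ProperMetric d ∧ HasAPC d)
    (C₀ : Subgroup C) [C₀.Normal] [∀ i, (C₀.map (φ i)).Normal]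
    (hG₀ : ∀ i, ∃ d : (G i ⧸ C₀.map (φ i)) → (G i ⧸ C₀.map (φ i)) → ℝ,
      ProperMetric d ∧ HasAPC d)
    (L : Type) [Group L] (hL : ∃ d : L → L → ℝ, ProperMetric d ∧ HasAPC d)
    (ρ : ∀ i, G i →* L) (hρ : ∀ c, ρ false (φ false c) = ρ true (φ true c))
    (hC : LocallyPolynomial ((QuotientGroup.mk : C → C ⧸ C₀) '' {c | ρ false (φ false c) = 1}))
    (d : Monoid.PushoutI φ → Monoid.PushoutI φ → ℝ) (hd : ProperMetric d) : HasAPC d := by
  have hρ' : ∀ i c, ρ i (φ i c) = ρ false (φ false c) := by
    intro i c
    cases i
    · rfl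
    · exact (hρ c).symm
  let R : Monoid.PushoutI φ →* L := Monoid.PushoutI.lift ρ ((ρ false).comp (φ false)) (by
    intro i
    ext c
    exact hρ' i c)
  have hR : ∀ c, R (Monoid.PushoutI.base φ c) = ρ false (φ false c) := by
    intro c
    show (Monoid.PushoutI.lift _ _ _) (Monoid.PushoutI.base φ c) = _
    rw [Monoid.PushoutI.lift_base]
    rfl
  have h1 : Pool.Agent.TH18.APC.APCon (Set.univ : Set (Monoid.PushoutI φ)) := by
    refine Pool.Agent.TH18.APC.APC_pushP hφ C₀ R (fun i => apcon_of (hG i))
      (fun i => apcon_of (hG₀ i)) (apcon_of hL) ?_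
    intro Φ hΦ
    refine polyG_of hC Φ (fun a ha => ?_)
    obtain ⟨c, hc, rfl⟩ := hΦ a ha
    exact ⟨c, (hR c).symm.trans hc, rfl⟩
  obtain ⟨-, -, -, -, hinv, hprop⟩ := hd
  intro r _
  obtain ⟨n, U, B, h2, h3, h4⟩ := Pool.Agent.TH18.APC.metric_of_APC h1 d hinv hprop r
  exact ⟨n, U, fun k hk => ⟨B, h2 k hk⟩, h3, h4⟩

end Pool.Agent.Results.MP_1df68a_gt.PolynomialGrowthOnC
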